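import Mathlib

set_option autoImplicit false
set_option linter.unusedSectionVars false

namespace Pool.Agent.Lib.MP_8e2408_co

open Finset

/-- Averaging over a uniform subset. -/
theorem uniform_sum {G X : Type} [Group G] [MulAction G X] [Fintype X] [DecidableEq X]
    (T : Finset G)
    (hT : ∀ x y : X, (T.filter (fun g => g • x = y)).card * Fintype.card X = T.card)
    (h : X → ℂ) (x : X) :
    (∑ t ∈ T, h (t • x)) * Fintype.card X = T.card * ∑ y, h y := by
  have h1 : ∑ t ∈ T, h (t • x) = ∑ y, ((T.filter (fun g => g • x = y)).card : ℂ) * h y := by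
    rw [← Finset.sum_fiberwise_of_maps_to (s := T) (t := Finset.univ) (g := fun g => g • x)
      (fun _ _ => Finset.mem_univ _)]
    refine Finset.sum_congr rfl (fun y _ => ?_)
    rw [Finset.sum_congr rfl (g := fun _ => h y)]
    · simp
    · intro g hg
      rw [(Finset.mem_filter.1 hg).2]
  rw [h1, Finset.sum_mul, Finset.mul_sum]
  refine Finset.sum_congr rfl (fun y _ => ?_)
  have := hT x y
  have h2 : ((T.filter (fun g => g • x = y)).card : ℂ) * Fintype.card X = T.card := by
    exact_mod_cast this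
  rw [← h2]; ring

/-- Disjoint monochromatic blocks. -/
theorem exists_blocks {ι C : Type} [DecidableEq ι] [Fintype C] [DecidableEq C] [Nonempty C]
    (a : ι → C) (y s : ℕ) (hy : Fintype.card C ≤ y) :
    ∀ (w : ℕ) (A : Finset ι), y * s + w * s ≤ A.card →
      ∃ e : Fin w × Fin s → ι, Function.Injective e ∧ (∀ p, e p ∈ A) ∧
        ∀ j l l', a (e (j, l)) = a (e (j, l')) := by
  intro w
  induction w with
  | zero =>
    intro A _
    exact ⟨fun p => p.1.elim0, fun p => p.1.elim0, fun p => p.1.elim0, fun j => j.elim0⟩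
  | succ w ih =>
    intro A hA
    obtain ⟨c, -, hc⟩ := Finset.exists_le_card_fiber_of_mul_le_card_of_maps_to
      (s := A) (t := (Finset.univ : Finset C)) (f := a) (n := s) (fun _ _ => Finset.mem_univ _)
      Finset.univ_nonempty (by
        rw [Finset.card_univ]
        have := Nat.mul_le_mul_right s hy
        omega)
    obtain ⟨B, hBsub, hBcard⟩ := Finset.exists_subset_card_eq hc
    have hBA : B ⊆ A := hBsub.trans (Finset.filter_subset _ _)
    obtain ⟨e, he, heA, hemono⟩ := ih (A \ B) (by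
      rw [Finset.card_sdiff_of_subset hBA, hBcard]
      have : (w + 1) * s = w * s + s := by ring
      omega)
    let f : Fin s → ι := fun l => ((B.equivFinOfCardEq hBcard).symm l : ι)
    have hf : Function.Injective f := by
      intro l l' h
      exact (B.equivFinOfCardEq hBcard).symm.injective (Subtype.ext h)
    have hfB : ∀ l, f l ∈ B := fun l => ((B.equivFinOfCardEq hBcard).symm l).2
    refine ⟨fun p => Fin.cases (motive := fun _ => ι) (f p.2) (fun j => e (j, p.2)) p.1, ?_, ?_, ?_⟩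
    · rintro ⟨j, l⟩ ⟨j', l'⟩ h
      induction j using Fin.cases with
      | zero =>
        induction j' using Fin.cases with
        | zero =>
          simp only [Fin.cases_zero] at h
          rw [hf h]
        | succ j' =>
          simp only [Fin.cases_zero, Fin.cases_succ] at h
          have h1 := (Finset.mem_sdiff.1 (heA (j', l'))).2
          exact absurd (h ▸ hfB l) h1
      | succ j =>
        induction j' using Fin.cases with
        | zero =>
          simp only [Fin.cases_zero, Fin.cases_succ] at h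
          have h1 := (Finset.mem_sdiff.1 (heA (j, l))).2
          exact absurd (h ▸ hfB l') h1
        | succ j' =>
          simp only [Fin.cases_succ] at h
          have := he h
          simp only [Prod.mk.injEq] at this
          rw [this.1, this.2]
    · rintro ⟨j, l⟩
      induction j using Fin.cases with
      | zero => exact hBA (hfB l)
      | succ j => exact (Finset.mem_sdiff.1 (heA (j, l))).1
    · intro j l l'
      induction j using Fin.cases with
      | zero =>
        simp only [Fin.cases_zero]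
        rw [(Finset.mem_filter.1 (hBsub (hfB l))).2, (Finset.mem_filter.1 (hBsub (hfB l'))).2]
      | succ j =>
        simp only [Fin.cases_succ]
        exact hemono j l l'

/-- Every colouring with few colours factors through a permuted standard partition. -/
theorem exists_factor {C : Type} [Fintype C] [DecidableEq C] [Nonempty C]
    (y s u w : ℕ) (hs : 0 < s) (hy : Fintype.card C ≤ y) (hu : y * s ≤ u)
    (a : Fin u ⊕ (Fin w × Fin s) → C) :
    ∃ (σ : Equiv.Perm (Fin u ⊕ (Fin w × Fin s))) (α : Fin u ⊕ Fin w → C),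
      ∀ i, a i = α (Sum.map id Prod.fst (σ i)) := by
  obtain ⟨e, he, -, hmono⟩ := exists_blocks a y s hy w Finset.univ (by
    simp only [Finset.card_univ, Fintype.card_sum, Fintype.card_fin, Fintype.card_prod]
    omega)
  obtain ⟨σ, hσ⟩ := Equiv.Perm.exists_extending_pair e Sum.inr he Sum.inr_injective
  refine ⟨σ, Sum.elim (fun i => a (σ.symm (Sum.inl i))) (fun j => a (e (j, ⟨0, hs⟩))), ?_⟩
  intro i
  obtain ⟨i', rfl⟩ := σ.symm.surjective i
  rw [Equiv.apply_symm_apply]
  rcases i' with i' | ⟨j, l⟩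
  · simp
  · have : σ.symm (Sum.inr (j, l)) = e (j, l) := by
      rw [Equiv.symm_apply_eq, hσ]
    simp only [this, Sum.map_inr, Sum.elim_inr]
    exact hmono j l _

section Construction

variable {ι J R : Type} [Fintype ι] [DecidableEq ι] [Fintype J] [DecidableEq J]
  [AddCommGroup R]

/-- Sums over the parts. -/
def push (φ : ι → J) (v : ι → R) : J → R := fun j => ∑ i, if φ i = j then v i else 0

theorem push_comp (φ : ι → J) (v : ι → R) (σ : Equiv.Perm ι) :
    push (φ ∘ σ) (v ∘ σ) = push φ v := by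
  funext j
  unfold push
  exact Equiv.sum_comp σ (fun i => if φ i = j then v i else 0)

theorem push_add (φ : ι → J) (v v' : ι → R) : push φ (v + v') = push φ v + push φ v' := by
  funext j
  simp only [push, Pi.add_apply, ← Finset.sum_add_distrib]
  refine Finset.sum_congr rfl (fun i _ => ?_)
  split_ifs <;> simp

theorem push_neg (φ : ι → J) (v : ι → R) : push φ (-v) = - push φ v := by
  funext j
  simp only [push, Pi.neg_apply, ← Finset.sum_neg_distrib]
  refine Finset.sum_congr rfl (fun i _ => ?_)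
  split_ifs <;> simp

theorem push_zero (φ : ι → J) : push φ (0 : ι → R) = 0 := by
  funext j
  simp [push]

theorem push_surj (φ : ι → J) (hφ : Function.Surjective φ) (z : J → R) :
    ∃ v : ι → R, push φ v = z := by
  refine ⟨fun i => if i = Function.surjInv hφ (φ i) then z (φ i) else 0, ?_⟩
  funext j
  unfold push
  rw [Finset.sum_eq_single (Function.surjInv hφ j)]
  · simp [Function.surjInv_eq]
  · intro i _ hi
    by_cases h : φ i = j
    · subst h
      simp [hi]
    · simp [h]
  · simp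

/-- The permuted copies of a fixed partition map. -/
abbrev Phi (φ₀ : ι → J) : Type := {φ : ι → J // ∃ σ : Equiv.Perm ι, φ = φ₀ ∘ σ}

/-- The set acted on. -/
abbrev XX (φ₀ : ι → J) (R : Type) : Type := Phi φ₀ × (J → R)

/-- Precomposition. -/
def Phi.act {φ₀ : ι → J} (φ : Phi φ₀) (σ : Equiv.Perm ι) : Phi φ₀ :=
  ⟨φ.1 ∘ σ, by
    obtain ⟨τ, hτ⟩ := φ.2
    exact ⟨σ.trans τ, by rw [hτ]; rfl⟩⟩

/-- The basic permutations. -/
def basic (φ₀ : ι → J) (σ : Equiv.Perm ι) (v : ι → R) : Equiv.Perm (XX φ₀ R) where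
  toFun x := (x.1.act σ, x.2 + push x.1.1 v)
  invFun x := (x.1.act σ.symm, x.2 - push (x.1.1 ∘ σ.symm) v)
  left_inv := by
    rintro ⟨φ, z⟩
    have h : (φ.1 ∘ σ) ∘ σ.symm = φ.1 := by
      funext i; simp
    refine Prod.ext (Subtype.ext h) ?_
    show z + push φ.1 v - push ((φ.1 ∘ σ) ∘ σ.symm) v = z
    rw [h]; abel
  right_inv := by
    rintro ⟨φ, z⟩
    have h : (φ.1 ∘ σ.symm) ∘ σ = φ.1 := by
      funext i; simp
    refine Prod.ext (Subtype.ext h) ?_
    show z - push (φ.1 ∘ σ.symm) v + push (φ.1 ∘ σ.symm) v = z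
    abel

/-- The group. -/
def GG (φ₀ : ι → J) (R : Type) [AddCommGroup R] : Subgroup (Equiv.Perm (XX φ₀ R)) where
  carrier := {g | ∃ (σ : Equiv.Perm ι) (v : ι → R), g = basic φ₀ σ v}
  one_mem' := by
    refine ⟨1, 0, ?_⟩
    ext1 x
    refine Prod.ext (Subtype.ext rfl) ?_
    show x.2 = x.2 + push x.1.1 0
    rw [push_zero, add_zero]
  mul_mem' := by
    rintro g g' ⟨σ, v, rfl⟩ ⟨σ', v', rfl⟩
    refine ⟨σ.trans σ', v' + v ∘ σ'.symm, ?_⟩
    ext1 x
    refine Prod.ext (Subtype.ext rfl) ?_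
    show x.2 + push x.1.1 v' + push (x.1.1 ∘ σ') v = x.2 + push x.1.1 (v' + v ∘ σ'.symm)
    rw [push_add, ← push_comp x.1.1 (v ∘ σ'.symm) σ']
    have : (v ∘ σ'.symm) ∘ σ' = v := by funext i; simp
    rw [this]; abel
  inv_mem' := by
    rintro g ⟨σ, v, rfl⟩
    refine ⟨σ.symm, - (v ∘ σ), ?_⟩
    ext1 x
    refine Prod.ext (Subtype.ext rfl) ?_
    show x.2 - push (x.1.1 ∘ σ.symm) v = x.2 + push x.1.1 (- (v ∘ σ))
    rw [push_neg, ← push_comp (x.1.1 ∘ σ.symm) v σ]
    have : (x.1.1 ∘ σ.symm) ∘ σ = x.1.1 := by funext i; simp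
    rw [this]; abel

theorem GG_trans (φ₀ : ι → J) (h₀ : Function.Surjective φ₀) :
    MulAction.IsPretransitive (GG φ₀ R) (XX φ₀ R) := by
  constructor
  rintro ⟨⟨φ, σ, rfl⟩, z⟩ ⟨⟨φ', σ', rfl⟩, z'⟩
  obtain ⟨v, hv⟩ := push_surj (φ₀ ∘ σ) (h₀.comp σ.surjective) (z' - z)
  refine ⟨⟨basic φ₀ (σ'.trans σ.symm) v, σ'.trans σ.symm, v, rfl⟩, ?_⟩
  refine Prod.ext (Subtype.ext ?_) ?_
  · show (φ₀ ∘ σ) ∘ (σ'.trans σ.symm) = φ₀ ∘ σ'
    funext i; simp
  · show z + push (φ₀ ∘ σ) v = z'
    rw [hv]; abel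

theorem sum_prod_char (q : ℕ) [NeZero q] {κ : Type} [Fintype κ] [DecidableEq κ]
    (b : κ → ZMod q) :
    ∑ a : κ → ZMod q, ZMod.stdAddChar (∑ i, a i * b i)
      = if b = 0 then ((q : ℂ) ^ Fintype.card κ) else 0 := by
  have h1 : ∀ a : κ → ZMod q, ZMod.stdAddChar (∑ i, a i * b i)
      = ∏ i, ZMod.stdAddChar (a i * b i) := by
    intro a
    induction (Finset.univ : Finset κ) using Finset.induction_on with
    | empty => simp
    | insert i s hi ih => rw [Finset.sum_insert hi, Finset.prod_insert hi, AddChar.map_add_eq_mul, ih]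
  simp_rw [h1]
  have h2 := Finset.prod_univ_sum (fun _ : κ => (Finset.univ : Finset (ZMod q)))
    (fun i x => ZMod.stdAddChar (x * b i))
  rw [Fintype.piFinset_univ] at h2
  rw [← h2]
  simp_rw [AddChar.sum_mulShift _ (ZMod.isPrimitive_stdAddChar q)]
  split_ifs with hb
  · subst hb
    simp
  · obtain ⟨i, hi⟩ := Function.ne_iff.1 hb
    exact Finset.prod_eq_zero (Finset.mem_univ i) (by simp only [Pi.zero_apply] at hi; simp [hi])

theorem key_dvd [Fintype R] [DecidableEq R] (φ₀ : ι → J) (q : ℕ) [NeZero q]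
    (π : R →+ ZMod q) (hπ : Function.Surjective π)
    (hfac : ∀ a : ι → ZMod q, ∃ (σ : Equiv.Perm ι) (α : J → ZMod q), ∀ i, a i = α (φ₀ (σ i)))
    [Fintype (XX φ₀ R)]
    (T : Finset (GG φ₀ R))
    (hT : ∀ x y : XX φ₀ R, (T.filter (fun g => g • x = y)).card * Fintype.card (XX φ₀ R) = T.card) :
    q ^ Fintype.card ι ∣ T.card := by
  classical
  have hex : ∀ t : GG φ₀ R, ∃ v : ι → R, ∀ x : XX φ₀ R, (t • x).2 = x.2 + push x.1.1 v := by
    rintro ⟨g, σ, v, rfl⟩
    exact ⟨v, fun x => rfl⟩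
  choose v hv using hex
  have hX : (Fintype.card (XX φ₀ R) : ℂ) ≠ 0 := by
    have : Nonempty (XX φ₀ R) := ⟨(⟨φ₀, 1, rfl⟩, 0)⟩
    exact_mod_cast Fintype.card_ne_zero
  have hzero : ∀ a : ι → ZMod q, a ≠ 0 →
      ∑ t ∈ T, ZMod.stdAddChar (∑ i, a i * π (v t i)) = 0 := by
    intro a ha
    obtain ⟨σ, α, hα⟩ := hfac a
    let h : XX φ₀ R → ℂ := fun x => ZMod.stdAddChar (∑ j, α j * π (x.2 j))
    let x₀ : XX φ₀ R := (⟨φ₀ ∘ σ, σ, rfl⟩, 0)
    have h1 := uniform_sum T hT h x₀
    have h2 : ∀ t : GG φ₀ R, h (t • x₀) = ZMod.stdAddChar (∑ i, a i * π (v t i)) := by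
      intro t
      simp only [h]
      rw [hv t x₀]
      congr 1
      simp only [x₀, zero_add, push, map_sum, Finset.mul_sum]
      rw [Finset.sum_comm]
      refine Finset.sum_congr rfl (fun i _ => ?_)
      rw [Finset.sum_eq_single (φ₀ (σ i))]
      · simp [hα i]
      · intro j _ hj
        have : ¬ (φ₀ (σ i) = j) := fun h => hj h.symm
        simp [this]
      · simp
    have h3 : ∑ y, h y = 0 := by
      obtain ⟨i, hi⟩ := Function.ne_iff.1 ha
      simp only [Pi.zero_apply] at hi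
      rw [hα i] at hi
      set j₀ := φ₀ (σ i)
      obtain ⟨r, hr⟩ := hπ 1
      let z₀ : J → R := Pi.single j₀ r
      let e : XX φ₀ R ≃ XX φ₀ R := Equiv.prodCongr (Equiv.refl _) (Equiv.addRight z₀)
      have h4 : ∀ y, h (e y) = ZMod.stdAddChar (α j₀) * h y := by
        intro y
        simp only [h, e, Equiv.prodCongr_apply, Prod.map_snd, Equiv.coe_addRight, Pi.add_apply,
          map_add, mul_add, Finset.sum_add_distrib]
        rw [AddChar.map_add_eq_mul, mul_comm]
        congr 2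
        rw [Finset.sum_eq_single j₀]
        · simp [z₀, hr]
        · intro j _ hj
          simp [z₀, hj]
        · simp
      have h5 : ∑ y, h y = ZMod.stdAddChar (α j₀) * ∑ y, h y := by
        rw [Finset.mul_sum, ← Equiv.sum_comp e h]
        exact Finset.sum_congr rfl (fun y _ => h4 y)
      have h6 : ZMod.stdAddChar (α j₀) ≠ (1 : ℂ) := by
        intro h7
        apply hi
        have := (ZMod.isPrimitive_stdAddChar q).zmod_char_eq_one_iff q (α j₀)
        exact this.1 h7
      exact eq_zero_of_mul_eq_self_left h6 h5.symm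
    rw [h3, mul_zero] at h1
    simp_rw [h2] at h1
    exact (mul_eq_zero.1 h1).resolve_right hX
  have hsum : ∑ a : ι → ZMod q, ∑ t ∈ T, ZMod.stdAddChar (∑ i, a i * π (v t i)) = (T.card : ℂ) := by
    rw [Finset.sum_eq_single 0]
    · simp
    · intro a _ ha
      exact hzero a ha
    · simp
  rw [Finset.sum_comm] at hsum
  simp_rw [sum_prod_char q] at hsum
  rw [← Finset.sum_filter] at hsum
  simp only [Finset.sum_const, nsmul_eq_mul] at hsum
  refine ⟨(T.filter (fun t => (fun i => π (v t i)) = 0)).card, ?_⟩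
  have : ((T.card : ℕ) : ℂ) = ((q ^ Fintype.card ι *
      (T.filter (fun t => (fun i => π (v t i)) = 0)).card : ℕ) : ℂ) := by
    push_cast
    rw [← hsum, mul_comm]
  exact_mod_cast this

end Construction

theorem exists_primes (m k : ℕ) : ∃ q : Fin k → ℕ, (∀ i, (q i).Prime) ∧ Function.Injective q ∧
    (∀ i, 2 ^ m ≤ q i) ∧ (∀ i, q i ≤ 2 ^ (m + k)) := by
  have h : ∀ i : Fin k, ∃ p : ℕ, p.Prime ∧ 2 ^ (m + i) < p ∧ p ≤ 2 * 2 ^ (m + i) :=
    fun i => Nat.exists_prime_lt_and_le_two_mul _ (by positivity)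
  choose q hq using h
  have hmono : StrictMono q := by
    intro i j hij
    have h1 : 2 * 2 ^ (m + i) ≤ 2 ^ (m + j) := by
      rw [← pow_succ']
      exact Nat.pow_le_pow_right (by norm_num) (by have : (i : ℕ) < j := hij; omega)
    have := (hq i).2.2
    have := (hq j).2.1
    omega
  refine ⟨q, fun i => (hq i).1, hmono.injective, fun i => ?_, fun i => ?_⟩
  · have h1 : 2 ^ m ≤ 2 ^ (m + i) := Nat.pow_le_pow_right (by norm_num) (by omega)
    have := (hq i).2.1
    omega
  · have h1 : 2 * 2 ^ (m + i) ≤ 2 ^ (m + k) := by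
      rw [← pow_succ']
      exact Nat.pow_le_pow_right (by norm_num) (by have := i.2; omega)
    have := (hq i).2.2
    omega

theorem numeric (K y b N : ℕ) (hK : 0 < K) (hy : 0 < y) (hb : 1 < b)
    (h1 : (y * (4 * K) + y * (4 * K)) ^ (2 * K) ≤ b)
    (hN : N ≤ (y * (4 * K) + y * (4 * K)) ^ (y * (4 * K) + y * (4 * K) * (4 * K)) *
      b ^ (y * (4 * K) + y * (4 * K))) :
    N ^ K < b ^ (y * (4 * K) + y * (4 * K) * (4 * K)) := by
  set ρ := y * (4 * K) + y * (4 * K) with hρ
  set r := y * (4 * K) + y * (4 * K) * (4 * K) with hr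
  have h2 : (N ^ K) ^ 2 < (b ^ r) ^ 2 := by
    calc (N ^ K) ^ 2 ≤ ((ρ ^ r * b ^ ρ) ^ K) ^ 2 := by gcongr
      _ = (ρ ^ (2 * K)) ^ r * b ^ (2 * K * ρ) := by
        rw [mul_pow, mul_pow, ← pow_mul, ← pow_mul, ← pow_mul, ← pow_mul, ← pow_mul]
        congr 2 <;> ring
      _ ≤ b ^ r * b ^ (2 * K * ρ) := by gcongr
      _ < b ^ r * b ^ r := by
        have h3 : 2 * K * ρ < r := by
          have : 0 < y * (4 * K) := by positivity
          have h4 : 2 * K * ρ = y * (4 * K) * (4 * K) := by rw [hρ]; ring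
          omega
        exact Nat.mul_lt_mul_of_pos_left (Nat.pow_lt_pow_right hb h3) (by positivity)
      _ = (b ^ r) ^ 2 := by ring
  exact lt_of_pow_lt_pow_left₀ 2 (by positivity) h2

theorem main (K : ℕ) (hK : 0 < K) :
    ∃ (G : Type) (X : Type) (_ : Group G) (_ : Fintype G) (_ : MulAction G X) (_ : Fintype X)
      (_ : DecidableEq X) (_ : Nonempty X), MulAction.IsPretransitive G X ∧
      ∀ T : Finset G, T.Nonempty →
        (∀ x y : X, (T.filter (fun g => g • x = y)).card * Fintype.card X = T.card) →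
        Fintype.card X ^ K < T.card := by
  classical
  obtain ⟨q, hqp, hqi, hql, hqu⟩ := exists_primes (8 * K + 1) (4 * K)
  set y := 2 ^ (8 * K + 1 + 4 * K) with hy
  haveI : ∀ i, NeZero (q i) := fun i => ⟨(hqp i).ne_zero⟩
  let s := 4 * K
  let ι := Fin (y * s) ⊕ (Fin (y * s) × Fin s)
  let J := Fin (y * s) ⊕ Fin (y * s)
  let R := (i : Fin (4 * K)) → ZMod (q i)
  let φ₀ : ι → J := Sum.map id Prod.fst
  have hs : 0 < s := by positivity
  have hφ₀ : Function.Surjective φ₀ := by
    rintro (j | j)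
    · exact ⟨Sum.inl j, rfl⟩
    · exact ⟨Sum.inr (j, ⟨0, hs⟩), rfl⟩
  letI : Fintype (XX φ₀ R) := inferInstance
  refine ⟨GG φ₀ R, XX φ₀ R, inferInstance, Fintype.ofFinite _, inferInstance, inferInstance,
    inferInstance, ⟨(⟨φ₀, 1, rfl⟩, 0)⟩, GG_trans φ₀ hφ₀, ?_⟩
  intro T hTne hT
  have hdvd : ∀ i, q i ^ Fintype.card ι ∣ T.card := by
    intro i
    refine key_dvd φ₀ (q i) (Pi.evalAddMonoidHom (fun i => ZMod (q i)) i)
      (fun x => ⟨Pi.single i x, by simp⟩) ?_ T ?_
    · intro a
      exact exists_factor y s (y * s) (y * s) hs (by rw [ZMod.card]; exact hqu i) le_rfl a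
    · intro x y
      convert hT x y
  have hprod : (∏ i, q i ^ Fintype.card ι) ∣ T.card := by
    refine Fintype.prod_dvd_of_isRelPrime ?_ hdvd
    intro i j hij
    simp only [Function.onFun]
    rw [← Nat.coprime_iff_isRelPrime]
    exact Nat.Coprime.pow _ _ ((Nat.coprime_primes (hqp i) (hqp j)).2 (fun h => hij (hqi h)))
  rw [Finset.prod_pow] at hprod
  have hle := Nat.le_of_dvd hTne.card_pos hprod
  set b := ∏ i, q i with hb
  have hιc : Fintype.card ι = y * (4 * K) + y * (4 * K) * (4 * K) := by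
    simp [ι, s]
  have hJc : Fintype.card J = y * (4 * K) + y * (4 * K) := by
    simp [J, s]
  have hRc : Fintype.card R = b := by
    simp [R, hb, ZMod.card]
  have hbl : 2 ^ ((8 * K + 1) * (4 * K)) ≤ b := by
    rw [pow_mul]
    have := Finset.pow_card_le_prod (Finset.univ : Finset (Fin (4 * K))) q (2 ^ (8 * K + 1))
      (fun i _ => hql i)
    simpa using this
  refine lt_of_lt_of_le ?_ hle
  rw [hιc]
  apply numeric K y b _ hK (by positivity)
  · refine lt_of_lt_of_le ?_ hbl
    exact Nat.one_lt_two_pow (by positivity)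
  · refine le_trans ?_ hbl
    have h1 : 4 * K ≤ 2 ^ (4 * K) := Nat.lt_two_pow_self.le
    have h2 : y * (4 * K) + y * (4 * K) ≤ 2 ^ (16 * K + 2) := by
      calc y * (4 * K) + y * (4 * K) ≤ y * 2 ^ (4 * K) + y * 2 ^ (4 * K) := by gcongr
        _ = 2 ^ (16 * K + 2) := by rw [hy]; ring
    calc (y * (4 * K) + y * (4 * K)) ^ (2 * K) ≤ (2 ^ (16 * K + 2)) ^ (2 * K) := by gcongr
      _ = 2 ^ ((8 * K + 1) * (4 * K)) := by rw [← pow_mul]; congr 1; ring
  · rw [Fintype.card_prod, Fintype.card_fun, hRc, hJc]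
    refine Nat.mul_le_mul_right _ ?_
    refine le_trans (Fintype.card_subtype_le _) ?_
    rw [Fintype.card_fun, hJc, hιc]

end Pool.Agent.Lib.MP_8e2408_co
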