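import Pool.Agent.Lib.MP_8e2408_co.Main

set_option autoImplicit false
set_option linter.unusedSectionVars false

namespace Pool.Agent.Lib.MP_8e2408_co

open Finset

/-- A partition map with few parts through which every colouring with `y` colours factors after a
permutation. -/
theorem univ_shape (y : ℕ) : ∀ L : ℕ, ∃ (ι J : Type) (_ : Fintype ι) (_ : DecidableEq ι)
    (_ : Fintype J) (_ : DecidableEq J) (φ : ι → J), Function.Surjective φ ∧
    Fintype.card ι = y * 2 ^ L ∧ Fintype.card J = y * (L + 1) ∧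
    ∀ (C : Type) [Fintype C] [DecidableEq C] [Nonempty C], Fintype.card C ≤ y → ∀ a : ι → C,
      ∃ (σ : Equiv.Perm ι) (α : J → C), ∀ i, a i = α (φ (σ i)) := by
  intro L
  induction L with
  | zero =>
    refine ⟨Fin y, Fin y, inferInstance, inferInstance, inferInstance, inferInstance, id,
      Function.surjective_id, by simp, by simp, ?_⟩
    intro C _ _ _ _ a
    exact ⟨1, a, fun i => rfl⟩
  | succ L ih =>
    obtain ⟨ι, J, i1, i2, i3, i4, φ, hφ, hι, hJ, hfac⟩ := ih
    have hs : 0 < 2 ^ L := by positivity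
    refine ⟨ι ⊕ (Fin y × Fin (2 ^ L)), J ⊕ Fin y, inferInstance, inferInstance, inferInstance,
      inferInstance, Sum.map φ Prod.fst, ?_, ?_, ?_, ?_⟩
    · rintro (j | j)
      · obtain ⟨i, rfl⟩ := hφ j
        exact ⟨Sum.inl i, rfl⟩
      · exact ⟨Sum.inr (j, ⟨0, hs⟩), rfl⟩
    · simp only [Fintype.card_sum, Fintype.card_prod, Fintype.card_fin, hι]; ring
    · simp only [Fintype.card_sum, Fintype.card_fin, hJ]; ring
    · intro C _ _ _ hy a
      obtain ⟨e, he, -, hmono⟩ := exists_blocks a y (2 ^ L) hy y Finset.univ (by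
        simp only [Finset.card_univ, Fintype.card_sum, Fintype.card_fin, Fintype.card_prod, hι]
        omega)
      obtain ⟨σ, hσ⟩ := Equiv.Perm.exists_extending_pair e Sum.inr he Sum.inr_injective
      obtain ⟨τ, α, hα⟩ := hfac C hy (fun i => a (σ.symm (Sum.inl i)))
      refine ⟨σ.trans (Equiv.sumCongr τ (Equiv.refl _)),
        Sum.elim α (fun j => a (e (j, ⟨0, hs⟩))), ?_⟩
      intro i
      obtain ⟨i', rfl⟩ := σ.symm.surjective i
      rw [Equiv.trans_apply, Equiv.apply_symm_apply]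
      rcases i' with i' | ⟨j, l⟩
      · simpa using hα i'
      · have : σ.symm (Sum.inr (j, l)) = e (j, l) := by
          rw [Equiv.symm_apply_eq, hσ]
        simp only [this, Equiv.sumCongr_apply, Sum.map_inr, Equiv.refl_apply, Sum.elim_inr]
        exact hmono j l _

/-- The affine type group acting on `H × W`. -/
theorem abstr {X V W H : Type} [AddCommGroup V] [AddCommGroup W] [Group H] (e : X ≃ H × W)
    (ρ : H →* AddMonoid.End V) (ψ : V →+ W) (hψ : Function.Surjective ψ) :
    ∃ (G : Subgroup (Equiv.Perm X)) (f : G →* H) (v : Equiv.Perm X → V),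
      (∀ x y, ∃ g ∈ G, g x = y) ∧
      (∀ g ∈ G, ∀ x, (e (g x)).2 = (e x).2 + ψ (ρ (e x).1 (v g))) ∧
      (∀ a b : G, f a = 1 → f b = 1 → a * b = b * a) := by
  classical
  let P : Equiv.Perm X → H → V → Prop := fun g h v =>
    ∀ x, e (g x) = ((e x).1 * h⁻¹, (e x).2 + ψ (ρ (e x).1 v))
  have hmul : ∀ g g' h h' v v', P g h v → P g' h' v' → P (g * g') (h * h') (v' + ρ h'⁻¹ v) := by
    intro g g' h h' v v' hg hg' x
    rw [Equiv.Perm.mul_apply, hg, hg']
    refine Prod.ext ?_ ?_
    · simp [mul_assoc]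
    · simp only [map_add, map_mul, AddMonoid.End.coe_mul, Function.comp_apply, add_assoc]
  let G : Subgroup (Equiv.Perm X) :=
    { carrier := {g | ∃ h v, P g h v}
      one_mem' := ⟨1, 0, fun x => by simp⟩
      mul_mem' := by
        rintro g g' ⟨h, v, hg⟩ ⟨h', v', hg'⟩
        exact ⟨_, _, hmul _ _ _ _ _ _ hg hg'⟩
      inv_mem' := by
        rintro g ⟨h, v, hg⟩
        refine ⟨h⁻¹, - ρ h v, fun x => ?_⟩
        obtain ⟨x, rfl⟩ := g.surjective x
        have h1 : g⁻¹ (g x) = x := by simp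
        rw [h1, hg]
        refine Prod.ext (by simp) ?_
        have h2 : ρ ((e x).1 * h⁻¹) (ρ h v) = ρ (e x).1 v := by
          have : ρ ((e x).1 * h⁻¹) (ρ h v) = ρ ((e x).1 * h⁻¹ * h) v := by
            rw [map_mul ρ _ h]; rfl
          rw [this]; simp
        simp only [map_neg, h2]; abel }
  have hex : ∀ g : Equiv.Perm X, ∃ p : H × V, g ∈ G → P g p.1 p.2 := by
    intro g
    by_cases hg : g ∈ G
    · obtain ⟨h, v, hv⟩ := hg
      exact ⟨(h, v), fun _ => hv⟩
    · exact ⟨(1, 0), fun h => absurd h hg⟩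
  choose p hp using hex
  have huniq : ∀ g h h' v v', P g h v → P g h' v' → h = h' := by
    intro g h h' v v' h1 h2
    have := congrArg Prod.fst ((h1 (e.symm (1, 0))).symm.trans (h2 (e.symm (1, 0))))
    simpa using this
  let f : G →* H := MonoidHom.mk' (fun g => (p g.1).1) (fun a b =>
    huniq _ _ _ _ _ (hp _ (a * b).2) (hmul _ _ _ _ _ _ (hp _ a.2) (hp _ b.2)))
  refine ⟨G, f, fun g => (p g).2, ?_, ?_, ?_⟩
  · intro x y
    obtain ⟨u, hu⟩ := hψ ((e y).2 - (e x).2)
    let h : H := (e y).1⁻¹ * (e x).1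
    let w : V := ρ (e x).1⁻¹ u
    let g₀ : Equiv.Perm (H × W) :=
      { toFun := fun z => (z.1 * h⁻¹, z.2 + ψ (ρ z.1 w))
        invFun := fun z => (z.1 * h, z.2 - ψ (ρ (z.1 * h) w))
        left_inv := fun z => by simp
        right_inv := fun z => by simp }
    refine ⟨(e.trans g₀).trans e.symm, ⟨h, w, fun z => by simp [g₀]⟩, ?_⟩
    have h2 : ρ (e x).1 w = u := by
      have : ρ (e x).1 w = ρ ((e x).1 * (e x).1⁻¹) u := by rw [map_mul]; rfl
      rw [this]; simp
    apply e.injective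
    simp only [Equiv.trans_apply, Equiv.apply_symm_apply, g₀, Equiv.coe_fn_mk, h2, hu, h]
    refine Prod.ext (by simp) (by simp)
  · intro g hg x
    rw [hp g hg x]
  · intro a b ha hb
    have ha' : (p a.1).1 = 1 := ha
    have hb' : (p b.1).1 = 1 := hb
    apply Subtype.ext
    ext x
    apply e.injective
    simp only [Subgroup.coe_mul, Equiv.Perm.mul_apply]
    rw [hp _ a.2, hp _ b.2, hp _ b.2, hp _ a.2, ha', hb']
    refine Prod.ext (by simp) ?_
    simp only [inv_one, mul_one]; abel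

/-- Vanishing of character sums over a uniform set. -/
theorem abstr_zero {X V W H : Type} [AddCommGroup V] [AddCommGroup W] [Group H] [Fintype X]
    [DecidableEq X] [Fintype W] [Fintype H] (e : X ≃ H × W)
    (ρ : H →* AddMonoid.End V) (ψ : V →+ W) (v : Equiv.Perm X → V) (T : Finset (Equiv.Perm X))
    (hv : ∀ g ∈ T, ∀ x, (e (g x)).2 = (e x).2 + ψ (ρ (e x).1 (v g)))
    (hT : ∀ x y : X, (T.filter (fun g => g x = y)).card * Fintype.card X = T.card)
    (η : AddChar W ℂ) (hη : η ≠ 0) (k : H) : ∑ t ∈ T, η (ψ (ρ k (v t))) = 0 := by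
  have h1 := uniform_sum T hT (fun x => η (e x).2) (e.symm (k, 0))
  have h3 : ∑ y : X, η (e y).2 = 0 := by
    rw [Equiv.sum_comp e (fun z => η z.2), Fintype.sum_prod_type]
    simp [AddChar.sum_eq_zero_iff_ne_zero.2 hη]
  rw [h3, mul_zero] at h1
  have hX : (Fintype.card X : ℂ) ≠ 0 := by
    have : Nonempty X := ⟨e.symm (k, 0)⟩
    exact_mod_cast Fintype.card_ne_zero
  rw [← (mul_eq_zero.1 h1).resolve_right hX]
  refine Finset.sum_congr rfl (fun t ht => ?_)
  rw [Equiv.Perm.smul_def, hv t ht]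
  simp

theorem dvd_of_zero {α ι : Type} [Fintype ι] [DecidableEq ι] (q : ℕ) [NeZero q] (T : Finset α)
    (w : α → ι → ZMod q)
    (hzero : ∀ a : ι → ZMod q, a ≠ 0 → ∑ t ∈ T, ZMod.stdAddChar (∑ i, a i * w t i) = 0) :
    q ^ Fintype.card ι ∣ T.card := by
  classical
  have hsum : ∑ a : ι → ZMod q, ∑ t ∈ T, ZMod.stdAddChar (∑ i, a i * w t i) = (T.card : ℂ) := by
    rw [Finset.sum_eq_single 0]
    · simp
    · intro a _ ha
      exact hzero a ha
    · simp
  rw [Finset.sum_comm] at hsum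
  simp_rw [sum_prod_char q] at hsum
  rw [← Finset.sum_filter] at hsum
  simp only [Finset.sum_const, nsmul_eq_mul] at hsum
  refine ⟨(T.filter (fun t => w t = 0)).card, ?_⟩
  have : ((T.card : ℕ) : ℂ) = ((q ^ Fintype.card ι * (T.filter (fun t => w t = 0)).card : ℕ) : ℂ) := by
    push_cast
    rw [← hsum, mul_comm]
  exact_mod_cast this

end Pool.Agent.Lib.MP_8e2408_co
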