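import Pool.Agent.Lib.MP_8e2408_co.Q1

set_option autoImplicit false
set_option linter.unusedSectionVars false
set_option linter.style.haveILetI false

namespace Pool.Agent.Lib.MP_8e2408_co

open Finset

theorem exists_small_group (P : Finset ℕ) (M : ℕ) (hM : 0 < M)
    (hP : ∀ q ∈ P, q.Prime ∧ q - 1 ∣ M) :
    ∃ A : Subgroup ((q : P) → ZMod q)ˣ, Nat.card A ≤ M ∧
      ∀ (q : P) (u : ZMod q), u ≠ 0 → ∃ a : A, (a.1 : (q : P) → ZMod q) q = u := by
  classical
  have hg : ∀ q : P, ∃ g : (ZMod q)ˣ, g ^ M = 1 ∧ ∀ u : ZMod q, u ≠ 0 → ∃ k : ℕ, (g : ZMod q) ^ k = u := by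
    intro q
    haveI : Fact (q : ℕ).Prime := ⟨(hP q q.2).1⟩
    obtain ⟨g, hg⟩ := IsCyclic.exists_monoid_generator (α := (ZMod q)ˣ)
    refine ⟨g, ?_, fun u hu => ?_⟩
    · obtain ⟨c, hc⟩ := (hP q q.2).2
      rw [hc, pow_mul, ZMod.units_pow_card_sub_one_eq_one, one_pow]
    · obtain ⟨k, hk⟩ := hg (Units.mk0 u hu)
      exact ⟨k, by simpa using congrArg Units.val hk⟩
  choose g hg1 hg2 using hg
  let γ : ((q : P) → ZMod q)ˣ := MulEquiv.piUnits.symm g
  have hγ : ∀ q : P, (γ : (q : P) → ZMod q) q = g q := fun q => rfl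
  refine ⟨Subgroup.zpowers γ, ?_, fun q u hu => ?_⟩
  · rw [Nat.card_zpowers]
    refine Nat.le_of_dvd hM (orderOf_dvd_of_pow_eq_one ?_)
    ext q
    rw [Units.val_pow_eq_pow_val, Pi.pow_apply, hγ, ← Units.val_pow_eq_pow_val, hg1]
    rfl
  · obtain ⟨k, hk⟩ := hg2 q u hu
    exact ⟨⟨γ ^ k, Subgroup.npow_mem_zpowers γ k⟩, by
      rw [Units.val_pow_eq_pow_val, Pi.pow_apply, hγ, hk]⟩

theorem build (P : Finset ℕ) (M L : ℕ) (hM : 0 < M) (hP : ∀ q ∈ P, q.Prime ∧ q - 1 ∣ M) :
    ∃ (n : ℕ) (G : Subgroup (Equiv.Perm (Fin n))) (N : Subgroup G),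
      N.Normal ∧ Group.IsSolvable N ∧ N.index ≤ n ∧ (∏ q ∈ P, q) ^ (2 * (L + 1)) ≤ n ∧
      n ≤ (M * (2 * 2 ^ L)) ^ (2 * 2 ^ L) * (∏ q ∈ P, q) ^ (2 * (L + 1)) ∧
      (∀ x y : Fin n, ∃ g ∈ G, g x = y) ∧
      ∀ T : Finset (Equiv.Perm (Fin n)), (∀ g ∈ T, g ∈ G) →
        (∀ x y : Fin n, (T.filter (fun g => g x = y)).card * n = T.card) →
        (∏ q ∈ P, q) ^ (2 * 2 ^ L) ∣ T.card := by
  classical
  obtain ⟨ι, J, i1, i2, i3, i4, φ, hφ, hι, hJ, hfac⟩ := univ_shape 2 L
  obtain ⟨A, hA, hAs⟩ := exists_small_group P M hM hP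
  haveI : ∀ q : P, NeZero (q : ℕ) := fun q => ⟨(hP q q.2).1.ne_zero⟩
  let R := (q : P) → ZMod q
  let H := (ι → A) ⋊[mulAutArrow] Equiv.Perm ι
  haveI : Finite H := Finite.of_equiv _ SemidirectProduct.equivProd.symm
  letI : Fintype H := Fintype.ofFinite H
  let ρ : H →* AddMonoid.End (ι → R) :=
    { toFun := fun h => AddMonoidHom.mk' (fun v i => ((h.left i).1 : R) * v (h.right⁻¹ i))
        (fun v w => by funext i; simp [mul_add])
      map_one' := by
        refine AddMonoidHom.ext (fun v => funext fun i => ?_)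
        exact one_mul (v i)
      map_mul' := fun h k => by
        refine AddMonoidHom.ext (fun v => funext fun i => ?_)
        exact mul_assoc ((h.left i).1 : R) ((k.left (h.right⁻¹ i)).1 : R) _ }
  let ψ : (ι → R) →+ (J → R) := AddMonoidHom.mk' (push φ) (push_add φ)
  let e : Fin (Fintype.card (H × (J → R))) ≃ H × (J → R) := (Fintype.equivFin _).symm
  obtain ⟨G, f, v, htr, hv, hcomm⟩ := abstr e ρ ψ (push_surj φ hφ)
  have hR : Fintype.card R = ∏ q ∈ P, q := by
    simp only [R, Fintype.card_pi, ZMod.card]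
    exact Finset.prod_coe_sort P (fun q => q)
  have hH : Fintype.card H = Nat.card A ^ (2 * 2 ^ L) * (2 * 2 ^ L).factorial := by
    rw [← Nat.card_eq_fintype_card, SemidirectProduct.card, Nat.card_fun, Nat.card_perm,
      Nat.card_eq_fintype_card (α := ι), hι]
  have hn : Fintype.card (H × (J → R)) =
      Nat.card A ^ (2 * 2 ^ L) * (2 * 2 ^ L).factorial * (∏ q ∈ P, q) ^ (2 * (L + 1)) := by
    rw [Fintype.card_prod, hH, Fintype.card_fun, hR, hJ]
  have hA0 : 0 < Nat.card A := Nat.card_pos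
  have hb0 : 0 < ∏ q ∈ P, q := Finset.prod_pos (fun q hq => (hP q hq).1.pos)
  let F : G →* Equiv.Perm ι := SemidirectProduct.rightHom.comp f
  refine ⟨_, G, F.ker, inferInstance, ?_, ?_, ?_, ?_, htr, ?_⟩
  · let p : F.ker →* (ι → A) := MonoidHom.mk' (fun g => (f g.1).left) (fun a b => by
      have ha : (f a.1).right = 1 := a.2
      rw [Subgroup.coe_mul, map_mul, SemidirectProduct.mul_left, ha, map_one]
      rfl)
    haveI : Group.IsSolvable p.ker := Group.isSolvable_of_comm (fun a b => by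
      have h1 : ∀ c : p.ker, f c.1.1 = 1 := fun c => SemidirectProduct.ext c.2 c.1.2
      exact Subtype.ext (Subtype.ext (hcomm _ _ (h1 a) (h1 b))))
    exact Group.isSolvable_of_ker_le_range p.ker.subtype p (by simp)
  · rw [Subgroup.index_ker]
    refine le_trans (Subgroup.card_le_card_group _) ?_
    rw [hn, Nat.card_perm, Nat.card_eq_fintype_card (α := ι), hι]
    exact le_trans (Nat.le_mul_of_pos_left _ (by positivity)) (Nat.le_mul_of_pos_right _ (by positivity))
  · rw [hn]
    exact Nat.le_mul_of_pos_left _ (by positivity)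
  · rw [hn, mul_pow]
    gcongr
    exact Nat.factorial_le_pow _
  · intro T hTG hT
    rw [← Finset.prod_pow, ← Finset.prod_coe_sort P]
    refine Fintype.prod_dvd_of_isRelPrime ?_ ?_
    · intro i j hij
      simp only [Function.onFun]
      rw [← Nat.coprime_iff_isRelPrime]
      exact Nat.Coprime.pow _ _ ((Nat.coprime_primes (hP i i.2).1 (hP j j.2).1).2
        (fun h => hij (Subtype.ext h)))
    intro q
    rw [← hι]
    haveI : Fact (q : ℕ).Prime := ⟨(hP q q.2).1⟩
    refine dvd_of_zero q T (fun t i => v t i q) (fun a ha => ?_)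
    obtain ⟨σ, β, hβ⟩ := hfac Bool (by simp) (fun i => decide (a i ≠ 0))
    have hu : ∀ u : ZMod q, ∃ c : A, u ≠ 0 → (c.1 : R) q = u := by
      intro u
      by_cases h : u = 0
      · exact ⟨1, fun h' => absurd h h'⟩
      · obtain ⟨c, hc⟩ := hAs q u h
        exact ⟨c, fun _ => hc⟩
    choose c hc using hu
    let k : H := ⟨fun i => c (a (σ⁻¹ i)), σ⟩
    let l : (J → R) →+ ZMod q := AddMonoidHom.mk' (fun z => ∑ j, if β j then z j q else 0)
      (fun z w => by
        rw [← Finset.sum_add_distrib]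
        refine Finset.sum_congr rfl (fun j _ => ?_)
        split_ifs <;> simp [R])
    have hη : ZMod.stdAddChar.compAddMonoidHom l ≠ 0 := by
      obtain ⟨i, hi⟩ := Function.ne_iff.1 ha
      have h1 : β (φ (σ i)) = true := by rw [← hβ i]; simpa using hi
      have h2 : l (Pi.single (φ (σ i)) 1) = 1 := by
        change (∑ j, if β j then (Pi.single (φ (σ i)) (1 : R) : J → R) j q else 0) = 1
        rw [Finset.sum_eq_single (φ (σ i))]
        · simp [h1, R]
        · intro j _ hj
          simp [hj, R]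
        · simp
      intro h
      have h3 := DFunLike.congr_fun h (Pi.single (φ (σ i)) 1)
      rw [AddChar.compAddMonoidHom_apply, h2, AddChar.zero_apply] at h3
      exact one_ne_zero (((ZMod.isPrimitive_stdAddChar q).zmod_char_eq_one_iff q 1).1 h3)
    have h0 := abstr_zero e ρ ψ v T (fun g hg => hv g (hTG g hg))
      (fun x y => by rw [Fintype.card_fin]; exact hT x y) _ hη k
    rw [← h0]
    refine Finset.sum_congr rfl (fun t _ => ?_)
    rw [AddChar.compAddMonoidHom_apply]
    congr 1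
    change _ = ∑ j, if β j then (∑ i, if φ i = j then ((c (a (σ⁻¹ i))).1 : R) * v t (σ⁻¹ i) else 0) q else 0
    have h4 : ∀ j, (if β j then (∑ i, if φ i = j then ((c (a (σ⁻¹ i))).1 : R) * v t (σ⁻¹ i) else 0) q
        else 0) = ∑ i, if φ (σ i) = j then a i * v t i q else 0 := by
      intro j
      rw [← Equiv.sum_comp σ, Finset.sum_apply]
      split_ifs with hj
      · refine Finset.sum_congr rfl (fun i _ => ?_)
        split_ifs with hi
        · have h5 : a i ≠ 0 := by
            have := hβ i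
            rw [hi, hj] at this
            simpa using this
          simp [R, hc _ h5]
        · rfl
      · refine (Finset.sum_eq_zero (fun i _ => ?_)).symm
        split_ifs with hi
        · have h5 : a i = 0 := by
            have := hβ i
            rw [hi] at this
            simpa [hj] using this
          simp [h5]
        · rfl
    simp_rw [h4]
    rw [Finset.sum_comm]
    simp

end Pool.Agent.Lib.MP_8e2408_co
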