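import Pool.Agent.Lib.MP_8e2408_co.Q2
import Pool.Agent.Lib.MP_6073f3_nt.Z.SW

set_option autoImplicit false
set_option linter.unusedSectionVars false
set_option linter.style.haveILetI false

namespace Pool.Agent.Lib.MP_8e2408_co

open Finset

theorem count_primes (A : ℕ) : ∃ z₀ : ℕ, ∀ z d : ℕ, z₀ ≤ z → 2 ≤ d → d ≤ z ^ A →
    3 ^ z ≤ 2 * (A + 2) * z * ((range (3 ^ z)).filter (fun c => (1 + d * c).Prime)).card := by
  obtain ⟨C, hC⟩ := Pool.Agent.Lib.RankZero.siegel_walfisz (A + 1) A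
  refine ⟨⌈2 * |C|⌉₊ + 1, fun z d hz hd hdz => ?_⟩
  have hz1 : 1 ≤ z := by omega
  have hzr : (1 : ℝ) ≤ z := by exact_mod_cast hz1
  have hzC : 2 * |C| ≤ z := by
    have h1 : (⌈2 * |C|⌉₊ : ℝ) ≤ z := by exact_mod_cast (by omega : ⌈2 * |C|⌉₊ ≤ z)
    exact (Nat.le_ceil _).trans h1
  set Y := 3 ^ z with hY
  have hY3 : 3 ≤ Y := by
    calc 3 = 3 ^ 1 := by norm_num
      _ ≤ 3 ^ z := Nat.pow_le_pow_right (by norm_num) hz1
  have hYr : (0 : ℝ) < Y := by positivity
  set N := z ^ A * Y with hN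
  have hzA : 1 ≤ z ^ A := Nat.one_le_pow _ _ hz1
  have hN2 : 2 ≤ N := by nlinarith
  have hlog : Real.log N = A * Real.log z + z * Real.log 3 := by
    rw [hN, hY]
    push_cast
    rw [Real.log_mul (by positivity) (by positivity), Real.log_pow, Real.log_pow]
  have h3 : 1 ≤ Real.log 3 := by
    rw [Real.le_log_iff_exp_le (by norm_num)]
    linarith [Real.exp_one_lt_d9]
  have h3' : Real.log 3 ≤ 2 := by
    have := Real.log_le_sub_one_of_pos (show (0 : ℝ) < 3 by norm_num)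
    linarith
  have hlz : 0 ≤ Real.log z := Real.log_nonneg hzr
  have hlz' : Real.log z ≤ z := by
    have := Real.log_le_sub_one_of_pos (show (0 : ℝ) < z by linarith)
    linarith
  have hA0 : (0 : ℝ) ≤ A := by positivity
  have hl1 : (z : ℝ) ≤ Real.log N := by rw [hlog]; nlinarith
  have hl2 : Real.log N ≤ (A + 2) * z := by rw [hlog]; nlinarith
  have h1 := hC N d 1 (d * Y) hN2 (by omega)
    (by
      calc (d : ℝ) ≤ (z : ℝ) ^ A := by exact_mod_cast hdz
        _ ≤ _ := by gcongr)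
    (Nat.mul_le_mul_right _ hdz) (by omega)
  have h2 : C * N / Real.log N ^ (A + 1) ≤ Y / 2 := by
    calc C * N / Real.log N ^ (A + 1) ≤ |C| * N / (z : ℝ) ^ (A + 1) := by
          gcongr
          exact le_abs_self C
      _ = |C| * Y / z := by
          rw [hN]; push_cast; field_simp; ring
      _ ≤ Y / 2 := by
          rw [div_le_div_iff₀ (by linarith) (by norm_num)]
          nlinarith
  have h4 : (Y : ℝ) ≤ ((d * Y - 0 : ℕ) : ℝ) / d.totient := by
    have ht : (0 : ℝ) < d.totient := by exact_mod_cast Nat.totient_pos.2 (by omega)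
    have ht' : (d.totient : ℝ) ≤ d := by exact_mod_cast Nat.totient_le d
    rw [le_div_iff₀ ht, Nat.sub_zero]
    push_cast
    nlinarith
  have h5 : Pool.Agent.Lib.RankZero.cls Pool.Agent.Lib.RankZero.th d 1 0 (d * Y) ≤
      ((range Y).filter (fun c => (1 + d * c).Prime)).card * ((A + 2) * z) := by
    unfold Pool.Agent.Lib.RankZero.cls Pool.Agent.Lib.RankZero.th
    rw [← Finset.sum_filter]
    refine (Finset.sum_le_card_nsmul _ _ ((A + 2 : ℝ) * z) ?_).trans ?_
    · intro n hn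
      simp only [mem_filter, mem_Ioc] at hn
      refine le_trans (Real.log_le_log (by exact_mod_cast hn.1.1.1) ?_) hl2
      exact_mod_cast hn.1.1.2.trans (Nat.mul_le_mul_right _ hdz)
    · rw [nsmul_eq_mul]
      refine mul_le_mul_of_nonneg_right (Nat.cast_le.2 ?_) (by positivity)
      refine Finset.card_le_card_of_injOn (fun n => n / d) ?_ ?_
      · intro n hn
        simp only [coe_filter, mem_filter, mem_Ioc, Set.mem_ofPred_eq, mem_range] at hn ⊢
        have h6 := Nat.mod_add_div n d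
        rw [hn.1.2] at h6
        refine ⟨?_, by rw [h6]; exact hn.2⟩
        have h7 : d * (n / d) < d * Y := by omega
        exact Nat.lt_of_mul_lt_mul_left h7
      · intro n hn m hm h
        simp only [coe_filter, mem_filter, mem_Ioc, Set.mem_ofPred_eq] at hn hm h
        have h6 := Nat.mod_add_div n d
        have h7 := Nat.mod_add_div m d
        rw [hn.1.2] at h6
        rw [hm.1.2, ← h] at h7
        omega
  unfold Pool.Agent.Lib.RankZero.Eth at h1
  rw [if_pos (Nat.coprime_one_left d)] at h1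
  have h8 := (abs_le.1 (h1.trans h2)).1
  have h9 : (Y : ℝ) ≤ 2 * (A + 2) * z * ((range Y).filter (fun c => (1 + d * c).Prime)).card := by
    nlinarith
  exact_mod_cast h9

theorem pi_big (A u : ℕ) (hu : A + 10 ≤ u) : u ^ 2 + A ≤ Nat.primeCounting (u ^ 4) := by
  have h := Chebyshev.pi_ge (u ^ 4)
  have hur : (A : ℝ) + 10 ≤ u := by exact_mod_cast hu
  have hA0 : (0 : ℝ) ≤ A := by positivity
  have hu1 : (10 : ℝ) ≤ u := by linarith
  have hl : Real.log u ≤ u - 1 := Real.log_le_sub_one_of_pos (by linarith)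
  have hl0 : 0 < Real.log u := Real.log_pos (by linarith)
  have h1 : Real.log ((u ^ 4 : ℕ) : ℝ) = 4 * Real.log u := by
    push_cast
    rw [Real.log_pow]
    norm_num
  have h2 : Real.log (((u ^ 4 : ℕ) : ℝ) + 1) ≤ 5 * u := by
    have h3 : ((u ^ 4 : ℕ) : ℝ) + 1 ≤ (u : ℝ) ^ 5 := by
      push_cast
      have : (1 : ℝ) ≤ (u : ℝ) ^ 4 := one_le_pow₀ (by linarith)
      nlinarith
    refine (Real.log_le_log (by positivity) h3).trans ?_
    rw [Real.log_pow]
    push_cast
    linarith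
  rw [h1, div_le_iff₀ (by linarith)] at h
  have h4 := Real.log_two_gt_d9
  have h5 : ((u : ℝ) ^ 2 + A) * (4 * u) ≤ ((u ^ 4 : ℕ) : ℝ) * Real.log 2 - 5 * u := by
    push_cast
    have h6 : (0 : ℝ) ≤ (u : ℝ) ^ 4 := by positivity
    have h7 : 10 * (u : ℝ) ^ 3 ≤ u ^ 4 := by nlinarith [pow_pos (show (0 : ℝ) < u by linarith) 3]
    have h8 : 10 * (u : ℝ) ^ 2 ≤ u ^ 3 := by nlinarith [pow_pos (show (0 : ℝ) < u by linarith) 2]
    nlinarith
  have h9 : ((u : ℝ) ^ 2 + A) * (4 * u) ≤ (Nat.primeCounting (u ^ 4) : ℝ) * (4 * u) := by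
    have : (Nat.primeCounting (u ^ 4) : ℝ) * (4 * Real.log u) ≤
        (Nat.primeCounting (u ^ 4) : ℝ) * (4 * u) := by
      gcongr
      linarith
    linarith
  have h10 := le_of_mul_le_mul_right h9 (by linarith)
  exact_mod_cast h10

theorem many_primes (E : ℕ) : ∃ u₀ : ℕ, ∀ u : ℕ, u₀ ≤ u → ∃ (P : Finset ℕ) (M : ℕ), 0 < M ∧
    M ≤ 12 ^ (u ^ 4) ∧ P.card = (u ^ 4) ^ E ∧ ∀ q ∈ P, q.Prime ∧ q - 1 ∣ M := by
  classical
  set A := 2 * E + 4 with hA
  obtain ⟨z₀, hz₀⟩ := count_primes A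
  refine ⟨z₀ + A + 10 + 2 * (A + 2) * A.factorial, fun u hu => ?_⟩
  set z := u ^ 4 with hz
  have huz : u ≤ z := Nat.le_self_pow (by norm_num) u
  have hz0 : 0 < z := by omega
  let D := (Nat.primesLE z).powersetCard A
  have hD : z ^ (E + 2) ≤ A.factorial * D.card := by
    rw [card_powersetCard, Nat.primesLE_card_eq_primeCounting,
      ← Nat.descFactorial_eq_factorial_mul_choose]
    refine le_trans ?_ (Nat.pow_sub_le_descFactorial _ _)
    have h1 := pi_big A u (by omega)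
    rw [← hz] at h1
    calc z ^ (E + 2) = (u ^ 2) ^ A := by rw [hz, hA, ← pow_mul, ← pow_mul]; congr 1; ring
      _ ≤ _ := Nat.pow_le_pow_left (by omega) _
  have hs : ∀ s ∈ D, (∀ p ∈ s, p ≤ z ∧ p.Prime) ∧ s.card = A ∧ s ⊆ Nat.primesLE z := by
    intro s hs
    rw [mem_powersetCard] at hs
    exact ⟨fun p hp => Nat.mem_primesLE.1 (hs.1 hp), hs.2, hs.1⟩
  have h1 : ∀ s ∈ D, 3 ^ z ≤ 2 * (A + 2) * z *
      ((range (3 ^ z)).filter (fun c => (1 + (∏ p ∈ s, p) * c).Prime)).card := by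
    intro s h
    obtain ⟨h1, h2, -⟩ := hs s h
    refine hz₀ z _ (by omega) ?_ ?_
    · calc 2 ≤ 2 ^ s.card := by rw [h2]; exact Nat.le_self_pow (by omega) 2
        _ ≤ _ := Finset.pow_card_le_prod _ _ _ (fun p hp => (h1 p hp).2.two_le)
    · rw [← h2]
      exact Finset.prod_le_pow_card _ _ _ (fun p hp => (h1 p hp).1)
  have h2 : ∑ _c ∈ range (3 ^ z), D.card ≤ ∑ c ∈ range (3 ^ z), 2 * (A + 2) * z *
      (D.filter (fun s => (1 + (∏ p ∈ s, p) * c).Prime)).card := by
    rw [← Finset.mul_sum]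
    simp only [card_filter]
    rw [Finset.sum_comm, Finset.mul_sum, sum_const, card_range, smul_eq_mul, mul_comm,
      ← smul_eq_mul, ← sum_const]
    refine Finset.sum_le_sum (fun s h => ?_)
    rw [← card_filter]
    exact h1 s h
  obtain ⟨c, hc, h3⟩ := Finset.exists_le_of_sum_le ⟨0, by simp⟩ h2
  set F := D.filter (fun s => (1 + (∏ p ∈ s, p) * c).Prime) with hF
  have h4 : z ^ E ≤ F.card := by
    have h5 : z ^ E * (z * z) ≤ F.card * (z * z) := by
      calc z ^ E * (z * z) = z ^ (E + 2) := by ring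
        _ ≤ A.factorial * (2 * (A + 2) * z * F.card) := hD.trans (Nat.mul_le_mul_left _ h3)
        _ = F.card * (z * (2 * (A + 2) * A.factorial)) := by ring
        _ ≤ _ := by gcongr; omega
    exact Nat.le_of_mul_le_mul_right h5 (by positivity)
  have hc0 : 0 < c := by
    obtain ⟨s, hs⟩ := Finset.card_pos.1 (lt_of_lt_of_le (by positivity) h4)
    rcases Nat.eq_zero_or_pos c with rfl | h
    · have := (mem_filter.1 hs).2
      simp at this
      exact absurd this Nat.not_prime_one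
    · exact h
  have h6 : (F.image (fun s => 1 + (∏ p ∈ s, p) * c)).card = F.card := by
    refine card_image_of_injOn (fun s hs' t ht h => ?_)
    have h7 : ∏ p ∈ s, p = ∏ p ∈ t, p := Nat.eq_of_mul_eq_mul_right hc0 (by simpa using h)
    rw [← Nat.primeFactors_prod (fun p hp => ((hs s (mem_filter.1 hs').1).1 p hp).2), h7,
      Nat.primeFactors_prod (fun p hp => ((hs t (mem_filter.1 ht).1).1 p hp).2)]
  obtain ⟨P, hP, hPc⟩ := Finset.exists_subset_card_eq (h4.trans h6.ge)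
  refine ⟨P, primorial z * c, Nat.mul_pos (primorial_pos z) hc0, ?_, hPc, fun q hq => ?_⟩
  · calc primorial z * c ≤ 4 ^ z * 3 ^ z :=
          Nat.mul_le_mul (primorial_le_four_pow z) (mem_range.1 hc).le
      _ = 12 ^ z := by rw [← mul_pow]; norm_num
  · obtain ⟨s, hs', rfl⟩ := mem_image.1 (hP hq)
    refine ⟨(mem_filter.1 hs').2, ?_⟩
    rw [Nat.add_sub_cancel_left, primorial_eq_prod_primesLE]
    exact Nat.mul_dvd_mul_right
      (Finset.prod_dvd_prod_of_subset _ _ _ (hs s (mem_filter.1 hs').1).2.2) c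

theorem quasi (E N₀ : ℕ) : ∃ (z n : ℕ) (G : Subgroup (Equiv.Perm (Fin n))) (N : Subgroup G),
    1 ≤ z ∧ N₀ ≤ n ∧ n ≤ 2 ^ (z ^ (E + 4)) ∧ N.Normal ∧ Group.IsSolvable N ∧ N.index ≤ n ∧
      (∀ x y : Fin n, ∃ g ∈ G, g x = y) ∧
      ∀ T : Finset (Equiv.Perm (Fin n)), T.Nonempty → (∀ g ∈ T, g ∈ G) →
        (∀ x y : Fin n, (T.filter (fun g => g x = y)).card * n = T.card) →
        4 ^ (z ^ (2 * E + 2)) ≤ T.card := by
  obtain ⟨u₀, hu₀⟩ := many_primes (E + 1)
  set w := u₀ + N₀ + 4 * E + 5 with hw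
  have hw2 : w < 2 ^ w := Nat.lt_two_pow_self
  obtain ⟨P, M, hM, hM12, hPc, hP⟩ := hu₀ (2 ^ w) (by omega)
  set u := 2 ^ w with hu
  set z := u ^ 4 with hz
  set k := z ^ (E + 1) with hk
  set L := 4 * w * (E + 1) with hL
  have hkL : 2 ^ L = k := by rw [hk, hz, hu, ← pow_mul, ← pow_mul, hL]; congr 1; ring
  clear_value L k z u w
  obtain ⟨n, G, N, h1, h2, h3, h4, h5, h6, h7⟩ := build P M L hM hP
  rw [hkL] at h5 h7
  have huz : u ≤ z := hz ▸ Nat.le_self_pow (by norm_num) u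
  have hzk : z ≤ k := hk ▸ Nat.le_self_pow (by omega) z
  have hb1 : 2 ^ k ≤ ∏ q ∈ P, q := by
    rw [← hPc]
    exact Finset.pow_card_le_prod _ _ _ (fun p hp => (hP p hp).1.two_le)
  have hz1 : 1 ≤ z := by omega
  have h12 : 12 ^ z < 2 ^ (4 * z) := by
    rw [pow_mul]
    exact Nat.pow_lt_pow_left (by norm_num) (by omega)
  have hb2 : ∏ q ∈ P, q ≤ 2 ^ (4 * z * k) := by
    rw [pow_mul, ← hPc]
    refine Finset.prod_le_pow_card _ _ _ (fun p hp => ?_)
    have := Nat.le_of_dvd hM (hP p hp).2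
    omega
  have hLz : L + 1 ≤ z := by
    have h8 : u * u ≤ z := by
      rw [hz]
      calc u * u = u ^ 2 := by ring
        _ ≤ _ := Nat.pow_le_pow_right (by omega) (by norm_num)
    calc L + 1 ≤ w * (4 * E + 5) := by rw [hL]; nlinarith
      _ ≤ u * u := Nat.mul_le_mul (by omega) (by omega)
      _ ≤ z := h8
  have hz18 : 18 ≤ z := by
    calc 18 ≤ 5 ^ 4 := by norm_num
      _ ≤ z := hz ▸ Nat.pow_le_pow_left (by omega) 4
  refine ⟨z, n, G, N, hz1, ?_, ?_, h1, h2, h3, h6, fun T hne hT hu => ?_⟩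
  · have h8 : k < 2 ^ k := Nat.lt_two_pow_self
    have h9 : ∏ q ∈ P, q ≤ (∏ q ∈ P, q) ^ (2 * (L + 1)) := Nat.le_self_pow (by omega) _
    omega
  · have h8 : 2 * k ≤ 2 ^ z := by
      rw [← hkL, ← pow_succ']
      exact Nat.pow_le_pow_right (by norm_num) hLz
    calc n ≤ (2 ^ (4 * z) * 2 ^ z) ^ (2 * k) * (2 ^ (4 * z * k)) ^ (2 * z) := by
          refine h5.trans (Nat.mul_le_mul (Nat.pow_le_pow_left (Nat.mul_le_mul (by omega) h8) _) ?_)
          exact (Nat.pow_le_pow_left hb2 _).trans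
            (Nat.pow_le_pow_right (by positivity) (by omega))
      _ = 2 ^ (k * (10 * z + 8 * z ^ 2)) := by
          rw [← pow_add, ← pow_mul, ← pow_mul, ← pow_add]
          congr 1
          ring
      _ ≤ 2 ^ (k * z ^ 3) := by
          refine Nat.pow_le_pow_right (by norm_num) (Nat.mul_le_mul_left _ ?_)
          have h9 := Nat.mul_le_mul_right (z ^ 2) hz18
          have h10 : z ≤ z ^ 2 := Nat.le_self_pow (by norm_num) z
          have h11 : z ^ 3 = z * z ^ 2 := by ring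
          omega
      _ = _ := by rw [hk]; congr 1; ring
  · calc 4 ^ (z ^ (2 * E + 2)) = (2 ^ k) ^ (2 * k) := by
          rw [← pow_mul, show (4 : ℕ) = 2 ^ 2 by norm_num, ← pow_mul, hk]
          congr 1
          ring
      _ ≤ (∏ q ∈ P, q) ^ (2 * k) := Nat.pow_le_pow_left hb1 _
      _ ≤ _ := Nat.le_of_dvd hne.card_pos (h7 T hT hu)

end Pool.Agent.Lib.MP_8e2408_co
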