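import Mathlib

set_option autoImplicit false
set_option linter.unusedSectionVars false
set_option linter.style.haveILetI false

namespace Pool.Agent.Lib.MP_8e2408_co.Up

open Finset MulAction

theorem halve (A : Type) [Group A] [Fintype A] (B S : Subgroup A) :
    2 * ∑ d : A, (((B ⊔ Subgroup.zpowers d ⊔ S).index : ℤ) - 1) ≤
      Fintype.card A * (((B ⊔ S).index : ℤ) - 1) := by
  classical
  set K := B ⊔ S with hK
  have hm : 0 < K.index := Nat.pos_of_ne_zero Subgroup.index_ne_zero_of_finite
  have h1 : ∀ d : A, 2 * (((B ⊔ Subgroup.zpowers d ⊔ S).index : ℤ) - 1) ≤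
      (K.index : ℤ) - 2 + if d ∈ K then (K.index : ℤ) else 0 := by
    intro d
    have hle : K ≤ B ⊔ Subgroup.zpowers d ⊔ S := sup_le_sup_right le_sup_left S
    have h2 := Subgroup.relIndex_mul_index hle
    have h3 : K.relIndex (B ⊔ Subgroup.zpowers d ⊔ S) ≠ 0 := by
      intro h
      rw [h] at h2
      omega
    split_ifs with hd
    · have h4 := Nat.le_of_dvd hm (Subgroup.index_dvd_of_le hle)
      omega
    · have h4 : K.relIndex (B ⊔ Subgroup.zpowers d ⊔ S) ≠ 1 := by
        rw [Ne, Subgroup.relIndex_eq_one]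
        intro h
        exact hd (h (Subgroup.mem_sup_left (Subgroup.mem_sup_right (Subgroup.mem_zpowers d))))
      have h5 : 2 * (B ⊔ Subgroup.zpowers d ⊔ S).index ≤ K.index := by
        rw [← h2]
        exact Nat.mul_le_mul_right _ (by omega)
      omega
  have h2 : (univ.filter (fun d : A => d ∈ K)).card * K.index = Fintype.card A := by
    rw [← Nat.card_eq_fintype_card, ← K.card_mul_index, Nat.card_eq_fintype_card,
      Fintype.card_subtype]
  rw [Finset.mul_sum]
  refine (Finset.sum_le_sum (fun d _ => h1 d)).trans ?_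
  rw [Finset.sum_add_distrib, ← Finset.sum_filter, sum_const, sum_const, card_univ,
    nsmul_eq_mul, nsmul_eq_mul]
  have h3 : ((univ.filter (fun d : A => d ∈ K)).card : ℤ) * K.index = Fintype.card A := by
    exact_mod_cast h2
  rw [h3]
  apply le_of_eq
  ring

theorem abel (A X : Type) [Group A] [Fintype A] [Fintype X] [MulAction A X] [FaithfulSMul A X]
    (hc : ∀ a b : A, a * b = b * a) (b t : ℕ) (hb0 : 0 < b)
    (hb : ∀ x : X, (stabilizer A x).index = b) (hX : Fintype.card X ≤ 2 ^ t) :
    ∃ B : Subgroup A, Nat.card B ≤ b ^ t ∧ ∀ x : X, B ⊔ stabilizer A x = ⊤ := by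
  classical
  have hN : ∀ H : Subgroup A, H.Normal := fun H =>
    ⟨fun n hn g => by rwa [hc g n, mul_inv_cancel_right]⟩
  have hord : ∀ d : A, Nat.card (Subgroup.zpowers d) ≤ b := by
    intro d
    rw [Nat.card_zpowers]
    refine Nat.le_of_dvd hb0 (orderOf_dvd_of_pow_eq_one ?_)
    refine FaithfulSMul.eq_of_smul_eq_smul (α := X) (fun x => ?_)
    haveI := hN (stabilizer A x)
    have := (stabilizer A x).pow_index_mem d
    rw [hb] at this
    rw [one_smul]
    exact this
  let Φ : Subgroup A → ℤ := fun B => ∑ x : X, (((B ⊔ stabilizer A x).index : ℤ) - 1)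
  have h1 : ∀ B : Subgroup A, ∃ d : A, 2 * Φ (B ⊔ Subgroup.zpowers d) ≤ Φ B := by
    intro B
    have h2 : ∑ d : A, 2 * Φ (B ⊔ Subgroup.zpowers d) ≤ ∑ _d : A, Φ B := by
      rw [← Finset.mul_sum, Finset.sum_comm, Finset.mul_sum, sum_const, card_univ, nsmul_eq_mul,
        Finset.mul_sum]
      exact Finset.sum_le_sum (fun x _ => halve A B _)
    obtain ⟨d, -, hd⟩ := Finset.exists_le_of_sum_le univ_nonempty h2
    exact ⟨d, hd⟩
  have h2 : ∀ j : ℕ, ∃ B : Subgroup A, Nat.card B ≤ b ^ j ∧
      2 ^ j * Φ B ≤ Fintype.card X * ((b : ℤ) - 1) := by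
    intro j
    induction j with
    | zero => exact ⟨⊥, by simp, by simp [Φ, hb, mul_sub]⟩
    | succ j ih =>
      obtain ⟨B, hB, hΦ⟩ := ih
      obtain ⟨d, hd⟩ := h1 B
      refine ⟨B ⊔ Subgroup.zpowers d, ?_, ?_⟩
      · haveI := hN (Subgroup.zpowers d)
        have h3 : Nat.card (B ⊔ Subgroup.zpowers d : Subgroup A) ≤
            Nat.card B * Nat.card (Subgroup.zpowers d) := by
          have h4 := Set.natCard_mul_le (s := (B : Set A)) (t := (Subgroup.zpowers d : Set A))
          rw [← Subgroup.mul_normal] at h4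
          exact h4
        rw [pow_succ]
        exact h3.trans (Nat.mul_le_mul hB (hord d))
      · rw [pow_succ, mul_assoc]
        exact le_trans (by gcongr) hΦ
  obtain ⟨B, hB, hΦ⟩ := h2 t
  refine ⟨B, hB, fun x => ?_⟩
  by_contra hx
  have hpos : ∀ y : X, 1 ≤ (B ⊔ stabilizer A y).index := fun y =>
    Nat.pos_of_ne_zero Subgroup.index_ne_zero_of_finite
  have h3 : (b : ℤ) ≤ Φ B := by
    have h4 : (univ.filter (fun y => y ∈ orbit A x)).card = b := by
      rw [← hb x, index_stabilizer, Set.ncard_eq_toFinset_card']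
      congr 1
      ext y
      simp
    calc (b : ℤ) = ∑ _y ∈ univ.filter (fun y => y ∈ orbit A x), (1 : ℤ) := by simp [h4]
      _ ≤ ∑ y ∈ univ.filter (fun y => y ∈ orbit A x),
            (((B ⊔ stabilizer A y).index : ℤ) - 1) := by
          refine Finset.sum_le_sum (fun y hy => ?_)
          obtain ⟨a, rfl⟩ := (mem_filter.1 hy).2
          have h5 : stabilizer A (a • x) = stabilizer A x := by
            ext g
            simp only [mem_stabilizer_iff]
            rw [← mul_smul, hc, mul_smul, smul_left_cancel_iff]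
          have h6 := hpos x
          have h7 : (B ⊔ stabilizer A x).index ≠ 1 := fun h => hx (Subgroup.index_eq_one.1 h)
          simp only [h5]
          omega
      _ ≤ Φ B := by
          refine Finset.sum_le_sum_of_subset_of_nonneg (filter_subset _ _) (fun y _ _ => ?_)
          have := hpos y
          omega
  have h4 : (Fintype.card X : ℤ) ≤ 2 ^ t := by exact_mod_cast hX
  have h5 : (0 : ℤ) < 2 ^ t := by positivity
  have h6 : (1 : ℤ) ≤ b := by exact_mod_cast hb0
  nlinarith

theorem count_sub (A X : Type) [Group A] [Fintype A] [DecidableEq X] [MulAction A X]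
    (hc : ∀ a b : A, a * b = b * a) (B : Subgroup A) [Fintype B] (z : X)
    (hB : B ⊔ stabilizer A z = ⊤) (a : A) :
    (univ.filter (fun β : B => β.1 • z = a • z)).card * (stabilizer A z).index = Fintype.card B := by
  classical
  haveI : (stabilizer A z).Normal := ⟨fun n hn g => by rwa [hc g n, mul_inv_cancel_right]⟩
  obtain ⟨β, hβ, s, hs, rfl⟩ := Subgroup.mem_sup_of_normal_right.1 (hB ▸ Subgroup.mem_top a)
  have h1 : (stabilizer A z).index = ((stabilizer A z).subgroupOf B).index := by
    rw [← Subgroup.relIndex_top_right, ← hB, Subgroup.relIndex_sup_right]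
    rfl
  rw [h1, ← Nat.card_eq_fintype_card, ← ((stabilizer A z).subgroupOf B).card_mul_index,
    Nat.card_eq_fintype_card, Fintype.card_subtype]
  congr 1
  refine Finset.card_bij (fun γ _ => (⟨β, hβ⟩ : B)⁻¹ * γ) ?_ ?_ ?_
  · intro γ hγ
    simp only [mem_filter, mem_univ, true_and, Subgroup.mem_subgroupOf, mem_stabilizer_iff] at hγ ⊢
    rw [mul_smul, mem_stabilizer_iff.1 hs] at hγ
    simp [mul_smul, hγ]
  · intro γ _ γ' _ h
    exact mul_left_cancel h
  · intro γ hγ
    refine ⟨⟨β, hβ⟩ * γ, ?_, by simp⟩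
    simp only [mem_filter, mem_univ, true_and, Subgroup.mem_subgroupOf, mem_stabilizer_iff] at hγ ⊢
    simp [mul_smul, hγ, mem_stabilizer_iff.1 hs]

end Pool.Agent.Lib.MP_8e2408_co.Up
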