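import Pool.Agent.Lib.MP_8e2408_co.U1

set_option autoImplicit false
set_option linter.unusedSectionVars false
set_option linter.style.haveILetI false

namespace Pool.Agent.Lib.MP_8e2408_co.Up

open Finset MulAction

/-- The inductive statement along a chain of normal subgroups. -/
def Good (G : Type) [Group G] (D : Subgroup G) (m t : ℕ) : Prop :=
  ∀ (X : Type) [Fintype X] [DecidableEq X] [MulAction G X], IsPretransitive G X → Nonempty X →
    Fintype.card X ≤ 2 ^ t → (∀ g ∈ D, ∀ x : X, g • x = x) →
    ∃ (I : Type) (_ : Fintype I) (f : I → G), Nonempty I ∧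
      (∀ a b, (f a)⁻¹ * f b ∈ D → a = b) ∧
      (∀ x y : X, (univ.filter (fun i => f i • x = y)).card * Fintype.card X = Fintype.card I) ∧
      Fintype.card I ≤ m * Fintype.card X ^ t

theorem good_base (G : Type) [Group G] [Fintype G] (N : Subgroup G) [N.Normal] (t : ℕ) :
    Good G N N.index t := by
  classical
  intro X _ _ _ htr hne _ hN
  refine ⟨G ⧸ N, inferInstance, Quotient.out, inferInstance, ?_, ?_, ?_⟩
  · intro a b h
    rw [← QuotientGroup.eq, QuotientGroup.out_eq', QuotientGroup.out_eq'] at h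
    exact h
  · intro x y
    have h0 : ∀ (g : G) (q : G ⧸ N), (g • q).out • x = g • q.out • x := by
      intro g q
      have h1 : (g * q.out)⁻¹ * (g • q).out ∈ N := by
        rw [← QuotientGroup.eq, QuotientGroup.out_eq']
        conv_rhs => rw [← QuotientGroup.out_eq' q]
        rfl
      have h2 := hN _ h1 x
      rw [mul_smul, inv_smul_eq_iff, mul_smul] at h2
      exact h2
    have h1 : ∀ y' : X, (univ.filter (fun q : G ⧸ N => q.out • x = y')).card =
        (univ.filter (fun q : G ⧸ N => q.out • x = y)).card := by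
      intro y'
      obtain ⟨g, rfl⟩ := htr.exists_smul_eq y' y
      refine Finset.card_bij (fun q _ => g • q) ?_ ?_ ?_
      · intro q hq
        simp only [mem_filter, mem_univ, true_and] at hq ⊢
        rw [h0, hq]
      · intro q _ q' _ h
        exact smul_left_cancel g h
      · intro q hq
        refine ⟨g⁻¹ • q, ?_, by simp⟩
        simp only [mem_filter, mem_univ, true_and] at hq ⊢
        rw [h0, hq, inv_smul_smul]
    have h2 := Finset.card_eq_sum_card_fiberwise (s := (univ : Finset (G ⧸ N))) (t := univ)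
      (f := fun q => q.out • x) (fun _ _ => mem_univ _)
    rw [card_univ] at h2
    rw [h2]
    simp only [h1]
    rw [sum_const, card_univ, smul_eq_mul, mul_comm]
  · rw [← Nat.card_eq_fintype_card]
    exact Nat.le_mul_of_pos_right _ (pow_pos Fintype.card_pos _)

theorem good_step (G : Type) [Group G] [Fintype G] (D : Subgroup G) [hD : D.Normal] (m t : ℕ)
    (h : Good G D m t) : Good G ⁅D, D⁆ m t := by
  classical
  intro X _ _ _ htr hne hX hN
  let A : Subgroup (Equiv.Perm X) := D.map (toPermHom G X)
  have hA : ∀ a : A, ∃ d ∈ D, ∀ x : X, d • x = a • x := by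
    rintro ⟨a, d, hd, rfl⟩
    exact ⟨d, hd, fun x => rfl⟩
  choose l hl1 hl2 using hA
  have hc : ∀ a b : A, a * b = b * a := by
    intro a b
    refine FaithfulSMul.eq_of_smul_eq_smul (α := X) (fun x => ?_)
    have h1 := hN _ (Subgroup.commutator_mem_commutator (hl1 a) (hl1 b)) (l b • l a • x)
    rw [commutatorElement_def] at h1
    simp only [mul_smul, inv_smul_smul] at h1
    rw [mul_smul, mul_smul, ← hl2, ← hl2, ← hl2, ← hl2, h1]
  have horb : ∀ (g : G) (x y : X), x ∈ orbit A y → g • x ∈ orbit A (g • y) := by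
    rintro g x y ⟨a, rfl⟩
    refine ⟨⟨toPermHom G X (g * l a * g⁻¹), _, hD.conj_mem _ (hl1 a) g, rfl⟩, ?_⟩
    change (g * l a * g⁻¹) • g • y = g • a • y
    rw [mul_smul, inv_smul_smul, mul_smul, hl2]
  let Y := Quotient (orbitRel A X)
  letI : MulAction G Y :=
    { smul := fun g => Quotient.map (fun x => g • x) (fun x y hxy => horb g x y hxy)
      one_smul := fun q => Quotient.inductionOn q (fun x => congrArg (Quotient.mk _) (one_smul G x))
      mul_smul := fun g g' q =>
        Quotient.inductionOn q (fun x => congrArg (Quotient.mk _) (mul_smul g g' x)) }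
  let π : X → Y := Quotient.mk _
  have hπ : ∀ (g : G) (x : X), g • π x = π (g • x) := fun _ _ => rfl
  have hπ2 : ∀ x y : X, π x = π y ↔ x ∈ orbit A y := fun x y => Quotient.eq
  obtain ⟨x₀⟩ := hne
  set b := (stabilizer A x₀).index with hbdef
  have hb0 : 0 < b := Nat.pos_of_ne_zero Subgroup.index_ne_zero_of_finite
  have hb : ∀ x : X, (stabilizer A x).index = b := by
    have h1 : ∀ x y : X, (stabilizer A x).index ≤ (stabilizer A y).index := by
      intro x y
      obtain ⟨g, rfl⟩ := htr.exists_smul_eq x y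
      rw [index_stabilizer, index_stabilizer]
      exact Set.ncard_le_ncard_of_injOn (fun z => g • z) (fun z hz => horb g z x hz)
        (fun _ _ _ _ h => smul_left_cancel g h)
    exact fun x => le_antisymm (h1 _ _) (h1 _ _)
  have hXY : Fintype.card X = Fintype.card Y * b := by
    have h2 := Finset.card_eq_sum_card_fiberwise (s := (univ : Finset X)) (t := univ)
      (f := π) (fun _ _ => mem_univ _)
    rw [card_univ] at h2
    rw [h2, ← card_univ, ← smul_eq_mul, ← sum_const]
    refine Finset.sum_congr rfl (fun q _ => ?_)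
    obtain ⟨x, rfl⟩ := Quotient.exists_rep q
    rw [← hb x, index_stabilizer, Set.ncard_eq_toFinset_card']
    congr 1
    ext y
    simp only [mem_filter, mem_univ, true_and, Set.mem_toFinset]
    exact hπ2 y x
  obtain ⟨I, i1, f, hI, hf1, hf2, hf3⟩ := h Y
    ⟨fun p q => by
      obtain ⟨x, rfl⟩ := Quotient.exists_rep p
      obtain ⟨y, rfl⟩ := Quotient.exists_rep q
      obtain ⟨g, rfl⟩ := htr.exists_smul_eq x y
      exact ⟨g, rfl⟩⟩ ⟨π x₀⟩
    (le_trans (by rw [hXY]; exact Nat.le_mul_of_pos_right _ hb0) hX)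
    (fun g hg q => by
      obtain ⟨x, rfl⟩ := Quotient.exists_rep q
      exact (hπ2 _ _).2 ⟨⟨toPermHom G X g, g, hg, rfl⟩, rfl⟩)
  obtain ⟨B, hB1, hB2⟩ := abel A X hc b t hb0 hb hX
  refine ⟨B × I, inferInstance, fun p => l p.1.1 * f p.2, inferInstance, ?_, ?_, ?_⟩
  · rintro ⟨β, i⟩ ⟨γ, j⟩ hp
    have h1 : (f i)⁻¹ * f j ∈ D := by
      have h2 := Subgroup.commutator_le_left D D hp
      have h3 := D.mul_mem (D.inv_mem (hD.conj_mem _
        (D.mul_mem (D.inv_mem (hl1 β.1)) (hl1 γ.1)) (f i)⁻¹)) h2
      simpa [mul_assoc] using h3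
    obtain rfl := hf1 i j h1
    refine Prod.ext (Subtype.ext (FaithfulSMul.eq_of_smul_eq_smul (α := X) (fun x => ?_))) rfl
    have h2 := hN _ hp ((f i)⁻¹ • x)
    simp only [mul_inv_rev, mul_smul, smul_inv_smul, smul_left_cancel_iff, inv_smul_eq_iff] at h2
    rw [← hl2, ← hl2, h2]
  · intro x y
    have h1 : (univ.filter (fun p : B × I => (l p.1.1 * f p.2) • x = y)).card * b =
        (univ.filter (fun i => f i • π x = π y)).card * Fintype.card B := by
      rw [card_filter, Fintype.sum_prod_type_right, Finset.sum_mul, card_filter, Finset.sum_mul]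
      refine Finset.sum_congr rfl (fun i _ => ?_)
      rw [← card_filter]
      simp only [mul_smul, hl2]
      split_ifs with hi
      · obtain ⟨a, rfl⟩ := (hπ2 _ _).1 (hi.symm.trans (hπ _ _))
        rw [one_mul, ← hb (f i • x)]
        exact count_sub A X hc B _ (hB2 _) a
      · rw [zero_mul, Nat.mul_eq_zero]
        left
        rw [card_eq_zero, filter_eq_empty_iff]
        intro β _ hβ
        exact hi ((hπ _ _).trans ((hπ2 _ _).2 ⟨β.1, hβ⟩).symm)
    rw [hXY, Fintype.card_prod, ← hf2 (π x) (π y), mul_left_comm, h1]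
    ring
  · rw [Fintype.card_prod, hXY, mul_pow, ← Nat.card_eq_fintype_card]
    calc Nat.card B * Fintype.card I ≤ b ^ t * (m * Fintype.card Y ^ t) := Nat.mul_le_mul hB1 hf3
      _ = _ := by ring

theorem good_bot (G : Type) [Group G] [Fintype G] (N : Subgroup G) [hN : N.Normal]
    (hs : Group.IsSolvable N) (t : ℕ) : Good G ⊥ N.index t := by
  have h1 : ∀ k : ℕ, ((derivedSeries N k).map N.subtype).Normal ∧
      Good G ((derivedSeries N k).map N.subtype) N.index t := by
    intro k
    induction k with
    | zero =>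
      rw [derivedSeries_zero, ← MonoidHom.range_eq_map, Subgroup.range_subtype]
      exact ⟨hN, good_base G N t⟩
    | succ k ih =>
      haveI := ih.1
      rw [derivedSeries_succ, Subgroup.map_commutator]
      exact ⟨inferInstance, good_step G _ _ _ ih.2⟩
  obtain ⟨k, hk⟩ := hs.solvable
  have h2 := (h1 k).2
  rwa [hk, Subgroup.map_bot] at h2

end Pool.Agent.Lib.MP_8e2408_co.Up
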